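import Mathlib
import Pool.Agent.Helper841.BCSum

set_option autoImplicit false

namespace Pool.Agent.Results.MP_bc5e3f_an.NullSeq

open Filter Topology TopologicalSpace Pool.Agent.Helper841.BC

/-- A null sequence through finite sets of small elements. -/
theorem exists_null_seq {A : Type*} [NormedAddCommGroup A] (S : ℕ → Set A)
    (hfin : ∀ i, (S i).Finite) (hS : ∀ i, ∀ a ∈ S i, ‖a‖ ≤ 1 / ((i : ℝ) + 1)) :
    ∃ x : ℕ → A, Tendsto x atTop (𝓝 0) ∧ ∀ i, ∀ a ∈ S i, ∃ k, x k = a := by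
  classical
  have hf : ∀ i, Finite (S i) := fun i => (hfin i).to_subtype
  obtain ⟨e, he⟩ := Countable.exists_injective_nat (Σ i, S i)
  refine ⟨Function.extend e (fun τ : Σ i, S i => (τ.2 : A)) 0, ?_,
    fun i a ha => ⟨e ⟨i, a, ha⟩, he.extend_apply _ _ _⟩⟩
  rw [← Nat.cofinite_eq_atTop, Metric.tendsto_nhds]
  intro ε hε
  rw [Filter.eventually_cofinite]
  obtain ⟨n, hn⟩ := exists_nat_one_div_lt hε
  refine Set.Finite.subset (s := e '' {τ : Σ i, S i | τ.1 ≤ n}) ?_ ?_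
  · have h1 : (⋃ i ∈ Set.Iic n, Set.range (fun a : S i => (⟨i, a⟩ : Σ j, S j))).Finite :=
      Set.Finite.biUnion (Set.finite_Iic n) fun i _ => Set.finite_range _
    refine Set.Finite.image _ (h1.subset ?_)
    rintro ⟨i, a⟩ hi
    exact Set.mem_biUnion (show i ∈ Set.Iic n from hi) ⟨a, rfl⟩
  · intro k hk
    by_contra hcon
    refine hk ?_
    rw [dist_zero_right]
    by_cases hr : ∃ τ, e τ = k
    · obtain ⟨τ, rfl⟩ := hr
      rw [he.extend_apply]
      have h1 : n < τ.1 := by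
        by_contra h
        exact hcon ⟨τ, not_lt.mp h, rfl⟩
      have h2 := hS τ.1 τ.2 τ.2.2
      refine lt_of_le_of_lt (h2.trans ?_) hn
      apply one_div_le_one_div_of_le (by positivity)
      have : (n : ℝ) < τ.1 := by exact_mod_cast h1
      linarith
    · rw [Function.extend_apply' _ _ _ hr]
      simpa using hε

theorem no_rep (D : ℕ → Blk)
    (hD : ∀ i : ℕ, 1 + ∑ m ∈ Finset.range (i + 1), P m (((i : ℝ) + 1) ^ 2) ≤ (D i).n 1) :
    ∃ x : ℕ → czero D, Tendsto x atTop (𝓝 0) ∧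
      ∀ (m : ℕ) (a : Fin m → czero D) (b : Fin m → ℕ → czero D),
        (∀ j, ∃ C : ℝ, ∀ k, ‖b j k‖ ≤ C) → ¬ ∀ k, x k = ∑ j, a j * b j k := by
  choose F hFfin hF1 hFnet using fun i => exists_net (Alg (D i))
  obtain ⟨x, hx0, hx⟩ := exists_null_seq
    (fun i => (fun f => (sing i (((1 / ((i : ℝ) + 1) : ℝ) : ℂ) • f) : czero D)) '' F i)
    (fun i => (hFfin i).image _) (by
      rintro i _ ⟨f, hf, rfl⟩
      refine (norm_sing_le i _).trans ?_
      rw [norm_smul, Complex.norm_real, Real.norm_of_nonneg (by positivity)]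
      exact mul_le_of_le_one_right (by positivity) (hF1 i f hf))
  refine ⟨x, hx0, ?_⟩
  intro m a b hb hrep
  choose c hc using hb
  -- one bound for everything
  let C : ℝ := ∑ j, |c j|
  have hC0 : 0 ≤ C := Finset.sum_nonneg fun j _ => abs_nonneg _
  have hbC : ∀ j k, ‖b j k‖ ≤ C := fun j k => (hc j k).trans ((le_abs_self _).trans
    (Finset.single_le_sum (f := fun j => |c j|) (fun j _ => abs_nonneg _) (Finset.mem_univ j)))
  let M : ℝ := ∑ j, ‖a j‖
  have hM0 : 0 ≤ M := Finset.sum_nonneg fun j _ => norm_nonneg _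
  have haM : ∀ j, ‖a j‖ ≤ M := fun j =>
    Finset.single_le_sum (f := fun j => ‖a j‖) (fun j _ => norm_nonneg _) (Finset.mem_univ j)
  obtain ⟨i, hi⟩ := exists_nat_ge (max (m : ℝ) (2 * M * C))
  have him : m ≤ i := by exact_mod_cast (le_max_left _ _).trans hi
  have hiM : 2 * M * C ≤ i := (le_max_right _ _).trans hi
  have hi0 : (0 : ℝ) < (i : ℝ) + 1 := by positivity
  let α : Fin m → Alg (D i) := fun j => (a j : Big D) i
  have hα : ∀ j, ‖α j‖ ≤ M := fun j => (norm_coord_le (a j) i).trans (haM j)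
  have hrepF : ∀ f ∈ F i, ∃ w : Fin m → Alg (D i),
      (∀ j, ‖w j‖ ≤ ((i : ℝ) + 1) * C) ∧ f = ∑ j, α j * w j := by
    intro f hf
    obtain ⟨k, hk⟩ := hx i _ ⟨f, hf, rfl⟩
    refine ⟨fun j => (((i : ℝ) + 1 : ℝ) : ℂ) • (b j k : Big D) i, fun j => ?_, ?_⟩
    · rw [norm_smul, Complex.norm_real, Real.norm_of_nonneg hi0.le]
      exact mul_le_mul_of_nonneg_left ((norm_coord_le (b j k) i).trans (hbC j k)) hi0.le
    · have h1 := hrep k
      rw [hk] at h1
      have h2 := congrArg (fun y : czero D => (y : Big D) i) h1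
      simp only [sing_self, sum_coord, mul_coord] at h2
      have h3 : f = (((i : ℝ) + 1 : ℝ) : ℂ) • ((((1 / ((i : ℝ) + 1) : ℝ) : ℂ)) • f) := by
        rw [smul_smul, ← Complex.ofReal_mul, mul_one_div_cancel hi0.ne', Complex.ofReal_one,
          one_smul]
      rw [h3, h2, Finset.smul_sum]
      refine Finset.sum_congr rfl fun j _ => ?_
      rw [mul_smul_comm]
  have hball := rep_ball α (R := ((i : ℝ) + 1) * C) (by positivity) (F i) (hFnet i) hrepF
  have hall : ∀ y : Alg (D i), ∃ w : Fin m → Alg (D i),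
      (∀ j, ‖w j‖ ≤ ‖y‖ * (2 * (((i : ℝ) + 1) * C))) ∧ y = ∑ j, α j * w j := by
    intro y
    rcases (norm_nonneg y).eq_or_lt with h0 | h0
    · refine ⟨0, fun j => ?_, ?_⟩
      · rw [← h0]; simp
      · rw [norm_eq_zero.mp h0.symm]; simp
    · have h1 : ‖(((‖y‖)⁻¹ : ℝ) : ℂ) • y‖ ≤ 1 := by
        rw [norm_smul, Complex.norm_real, Real.norm_of_nonneg (inv_nonneg.mpr h0.le),
          inv_mul_cancel₀ h0.ne']
      obtain ⟨w, hw, hyw⟩ := hball _ h1
      refine ⟨fun j => ((‖y‖ : ℝ) : ℂ) • w j, fun j => ?_, ?_⟩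
      · rw [norm_smul, Complex.norm_real, Real.norm_of_nonneg h0.le]
        exact mul_le_mul_of_nonneg_left (hw j) h0.le
      · have h3 : y = ((‖y‖ : ℝ) : ℂ) • ((((‖y‖)⁻¹ : ℝ) : ℂ) • y) := by
          rw [smul_smul, ← Complex.ofReal_mul, mul_inv_cancel₀ h0.ne', Complex.ofReal_one,
            one_smul]
        conv_lhs => rw [h3, hyw, Finset.smul_sum]
        refine Finset.sum_congr rfl fun j _ => ?_
        rw [mul_smul_comm]
  choose w hw hyw using hall
  have hβ : ∀ l j, ‖w (α l) j‖ ≤ ((i : ℝ) + 1) ^ 2 := by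
    intro l j
    calc ‖w (α l) j‖ ≤ ‖α l‖ * (2 * (((i : ℝ) + 1) * C)) := hw _ _
      _ ≤ M * (2 * (((i : ℝ) + 1) * C)) := mul_le_mul_of_nonneg_right (hα l) (by positivity)
      _ = (2 * M * C) * ((i : ℝ) + 1) := by ring
      _ ≤ ((i : ℝ) + 1) * ((i : ℝ) + 1) := mul_le_mul_of_nonneg_right (by linarith) hi0.le
      _ = ((i : ℝ) + 1) ^ 2 := by ring
  obtain ⟨v, hv, hvα⟩ := quasi_unit m (((i : ℝ) + 1) ^ 2) α (fun l j => w (α l) j)
    (by positivity) (fun l => by
      conv_lhs => rw [hyw (α l)]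
      exact Finset.sum_congr rfl fun j _ => mul_comm _ _) hβ
  have hv1 : v = 1 := by
    have h1 : v * (1 : Alg (D i)) = 1 := by
      rw [hyw 1, Finset.mul_sum]
      refine Finset.sum_congr rfl fun j _ => ?_
      rw [← mul_assoc, hvα j]
    rwa [mul_one] at h1
  rw [hv1, norm_def] at hv
  have hv' : (D i).n 1 ≤ P m (((i : ℝ) + 1) ^ 2) := hv
  have h2 := hD i
  have h3 : P m (((i : ℝ) + 1) ^ 2) ≤ ∑ m ∈ Finset.range (i + 1), P m (((i : ℝ) + 1) ^ 2) :=
    Finset.single_le_sum (f := fun m => P m (((i : ℝ) + 1) ^ 2))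
      (fun m _ => P_nonneg m _ (by positivity)) (Finset.mem_range.mpr (by omega))
  linarith

/-- There is a commutative separable complex Banach algebra `A` in which every element is a
product of two elements (so `A = A^2`), and a null sequence `x` in `A` that is not of the form
`x k = ∑ j, a j * b j k` with finitely many `a j` in `A` and null sequences `b j`; not even
bounded sequences `b j` suffice. -/
theorem result : ∃ (A : Type) (_ : NonUnitalNormedCommRing A) (_ : NormedSpace ℂ A)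
    (_ : IsScalarTower ℂ A A) (_ : SMulCommClass ℂ A A) (_ : CompleteSpace A)
    (_ : SeparableSpace A),
    Submodule.span ℂ {x : A | ∃ b c : A, x = b * c} = ⊤ ∧
    (∀ a : A, ∃ b c : A, a = b * c) ∧
    ∃ x : ℕ → A, Tendsto x atTop (𝓝 0) ∧
      (∀ (m : ℕ) (a : Fin m → A) (b : Fin m → ℕ → A), (∀ j, Tendsto (b j) atTop (𝓝 0)) →
        ¬ ∀ k, x k = ∑ j, a j * b j k) ∧
      ∀ (m : ℕ) (a : Fin m → A) (b : Fin m → ℕ → A), (∀ j, ∃ C : ℝ, ∀ k, ‖b j k‖ ≤ C) →
        ¬ ∀ k, x k = ∑ j, a j * b j k := by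
  have hex : ∀ i : ℕ, ∃ B : Blk,
      1 + ∑ m ∈ Finset.range (i + 1), P m (((i : ℝ) + 1) ^ 2) ≤ B.n 1 := by
    intro i
    obtain ⟨K, hK⟩ := exists_nat_ge (1 + ∑ m ∈ Finset.range (i + 1), P m (((i : ℝ) + 1) ^ 2))
    obtain ⟨B, hB⟩ := exists_blk K
    exact ⟨B, hK.trans hB⟩
  choose D hD using hex
  obtain ⟨x, hx0, hx⟩ := no_rep D hD
  refine ⟨czero D, inferInstance, inferInstance, inferInstance, inferInstance, inferInstance,
    separable_czero, ?_, factor_czero, x, hx0, ?_, hx⟩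
  · rw [eq_top_iff]
    intro a _
    exact Submodule.subset_span (factor_czero a)
  · intro m a b hb
    refine hx m a b fun j => ?_
    obtain ⟨C, hC⟩ := (hb j).norm.bddAbove_range
    exact ⟨C, fun k => hC ⟨k, rfl⟩⟩

end Pool.Agent.Results.MP_bc5e3f_an.NullSeq
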